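import Pool.Agent.N71.PS.DStubs2
import Pool.Agent.H38R2.CG.CC6

/-!
# Real characters give admissible residues (D_RA)
-/

set_option autoImplicit false

namespace Pool.Agent.N71.PS.RA232

open Finset Filter Pool.Agent.H38R2.CG Pool.Agent.H38R2.CG2
open scoped Classical
open Pool.Agent.H38R2.CG.CC6h (jchar jchar_apply exists_neg)

/-- the product character modulo `M f` -/
theorem char_prod (M f : ℕ) (hM : 1 ≤ M) (hf : 1 ≤ f) (hs : Squarefree f)
    (hc : f.Coprime (2 * M)) (ψ : DirichletCharacter ℂ M) (hψ2 : ψ ^ 2 = 1)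
    (hψ : ¬ (ψ = 1 ∧ f = 1)) :
    ∃ χ : DirichletCharacter ℂ (M * f), χ ≠ 1 ∧ χ ^ 2 = 1 ∧
      ∀ n : ℕ, n.Coprime (M * f) →
        χ (n : ZMod (M * f)) = ψ (n : ZMod M) * ((jacobiSym (n : ℤ) f : ℤ) : ℂ) := by
  have : NeZero M := ⟨by omega⟩
  have : NeZero f := ⟨by omega⟩
  have : NeZero (M * f) := ⟨Nat.mul_ne_zero (by omega) (by omega)⟩
  set χ : DirichletCharacter ℂ (M * f) :=
    DirichletCharacter.changeLevel (dvd_mul_right M f) ψ *
      DirichletCharacter.changeLevel (dvd_mul_left f M) (jchar f) with hχ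
  have happ : ∀ n : ℕ, n.Coprime (M * f) →
      χ (n : ZMod (M * f)) = ψ (n : ZMod M) * ((jacobiSym (n : ℤ) f : ℤ) : ℂ) := by
    intro n hn
    have hu : IsUnit ((n : ℕ) : ZMod (M * f)) := (ZMod.isUnit_iff_coprime n (M * f)).mpr hn
    rw [hχ, MulChar.mul_apply]
    obtain ⟨u, hu'⟩ := hu
    rw [← hu', DirichletCharacter.changeLevel_eq_cast_of_dvd,
      DirichletCharacter.changeLevel_eq_cast_of_dvd, hu', ZMod.cast_natCast (dvd_mul_right M f),
      ZMod.cast_natCast (dvd_mul_left f M), jchar_apply]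
  have hcM : f.Coprime M := Nat.Coprime.coprime_dvd_right (dvd_mul_left M 2) hc
  have hc2 : f.Coprime 2 := Nat.Coprime.coprime_dvd_right (dvd_mul_right 2 M) hc
  have hne : χ ≠ 1 := by
    intro h1
    by_cases hf1 : f = 1
    · have hψ1 : ψ ≠ 1 := fun h => hψ ⟨h, hf1⟩
      apply hψ1
      subst hf1
      ext u
      obtain ⟨n, hn⟩ : ∃ n : ℕ, (n : ZMod M) = (u : ZMod M) :=
        ⟨(u : ZMod M).val, ZMod.natCast_zmod_val _⟩
      have hcop : n.Coprime M := by
        rw [← ZMod.isUnit_iff_coprime, hn]; exact u.isUnit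
      have h2 := happ n (by simpa using hcop)
      have h3 : χ (n : ZMod (M * 1)) = 1 := by
        rw [h1]
        exact MulChar.one_apply ((ZMod.isUnit_iff_coprime n (M * 1)).mpr (by simpa using hcop))
      rw [h3] at h2
      rw [← hn, MulChar.one_apply (by rw [hn]; exact u.isUnit)]
      simpa using h2.symm
    · obtain ⟨a, ha⟩ := exists_neg f (by omega) hs hc2
      obtain ⟨b, hb1, hb2⟩ := Nat.chineseRemainder hcM a 1
      have hJ : jacobiSym (b : ℤ) f = -1 := by
        have h1 : ((b : ℤ)) % f = (a : ℤ) % f := by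
          have : b % f = a % f := hb1
          exact_mod_cast this
        rw [jacobiSym.mod_left, h1, ← jacobiSym.mod_left, ha]
      have hbM : ((b : ℕ) : ZMod M) = ((1 : ℕ) : ZMod M) :=
        (ZMod.natCast_eq_natCast_iff _ _ _).mpr hb2
      have hbcM : b.Coprime M := by
        rw [← ZMod.isUnit_iff_coprime, hbM]; simp
      have hbcf : b.Coprime f := by
        by_contra hcon
        have : jacobiSym (b : ℤ) f = 0 := by
          rw [jacobiSym.eq_zero_iff_not_coprime]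
          simpa [Int.gcd_natCast_natCast] using hcon
        rw [hJ] at this
        norm_num at this
      have hbc : b.Coprime (M * f) := Nat.Coprime.mul_right hbcM hbcf
      have h2 := happ b hbc
      have h3 : χ (b : ZMod (M * f)) = 1 := by
        rw [h1]
        exact MulChar.one_apply ((ZMod.isUnit_iff_coprime b (M * f)).mpr hbc)
      rw [h3, hbM, hJ] at h2
      norm_num at h2
  refine ⟨χ, hne, ?_, happ⟩
  ext u
  obtain ⟨n, hn⟩ : ∃ n : ℕ, (n : ZMod (M * f)) = (u : ZMod (M * f)) :=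
    ⟨(u : ZMod (M * f)).val, ZMod.natCast_zmod_val _⟩
  have hcop : n.Coprime (M * f) := by
    rw [← ZMod.isUnit_iff_coprime, hn]; exact u.isUnit
  have hcopM : n.Coprime M := Nat.Coprime.coprime_dvd_right (dvd_mul_right M f) hcop
  have hcopf : n.Coprime f := Nat.Coprime.coprime_dvd_right (dvd_mul_left f M) hcop
  have e1 : ψ (n : ZMod M) ^ 2 = 1 := by
    have := congrArg (fun c : DirichletCharacter ℂ M => c (n : ZMod M)) hψ2
    simp only [MulChar.pow_apply' ψ (two_ne_zero)] at this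
    rw [this]
    exact MulChar.one_apply ((ZMod.isUnit_iff_coprime n M).mpr hcopM)
  have e2 : ((jacobiSym (n : ℤ) f : ℤ) : ℂ) ^ 2 = 1 := by
    have : jacobiSym (n : ℤ) f ^ 2 = 1 := by
      apply jacobiSym.sq_one
      rw [Int.gcd_natCast_natCast]
      exact hcopf
    exact_mod_cast this
  rw [MulChar.pow_apply' χ two_ne_zero, ← hn, happ n hcop, mul_pow, e1, e2,
    MulChar.one_apply ((ZMod.isUnit_iff_coprime n (M * f)).mpr hcop), one_mul]

/-- characters modulo 8 are real -/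
theorem sq8 (ψ : DirichletCharacter ℂ 8) : ψ ^ 2 = 1 := by
  ext u
  have h : u ^ 2 = 1 := by
    revert u
    decide
  rw [MulChar.pow_apply' ψ two_ne_zero, ← map_pow, ← Units.val_pow_eq_pow_val, h]
  simp

variable [PSet]

theorem D_RA_true : D_RA := by
  intro m hm hR z r hrm ψ f hfr hfz hψ1 h12 h8 hne
  -- properties of `f`
  have hP0 : (∏ l ∈ (Finset.Icc 3 z).filter Nat.Prime, l) ≠ 0 := by
    rw [Finset.prod_ne_zero_iff]
    intro l hl
    exact (Finset.mem_filter.1 hl).2.ne_zero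
  have hf1 : 1 ≤ f := Nat.one_le_iff_ne_zero.2 (ne_zero_of_dvd_ne_zero hP0 hfz)
  have hsq : Squarefree (∏ l ∈ (Finset.Icc 3 z).filter Nat.Prime, l) := by
    refine Finset.squarefree_prod_of_pairwise_isCoprime (fun a ha b hb hab => ?_) fun l hl => ?_
    · exact Nat.coprime_iff_isRelPrime.1
        ((Nat.coprime_primes (Finset.mem_filter.1 ha).2 (Finset.mem_filter.1 hb).2).2 hab)
    · exact (Finset.mem_filter.1 hl).2.prime.squarefree
  have hs : Squarefree f := hsq.squarefree_of_dvd hfz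
  have hf2 : f.Coprime 2 := by
    refine Nat.Coprime.coprime_dvd_left hfz ?_
    refine Nat.Coprime.prod_left fun l hl => ?_
    have h3 := Finset.mem_filter.1 hl
    have h4 := (Finset.mem_Icc.1 h3.1).1
    exact (Nat.coprime_primes h3.2 Nat.prime_two).2 (by omega)
  have hfm : f.Coprime m := Nat.Coprime.coprime_dvd_left hfr hrm
  have key : ∀ (M : ℕ) (φ : DirichletCharacter ℂ M), 1 ≤ M → M ∣ 8 → M.Coprime m →
      φ ^ 2 = 1 → ¬ (φ = 1 ∧ f = 1) → (∀ n : ℕ, n.Coprime 8 → φ (n : ZMod M) = ψ (n : ZMod 8)) →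
      ∃ β : ℝ, β < 1 ∧ ∃ y0 : ℕ, ∀ y ≥ y0,
        ‖∑ p ∈ PP y, ψ (p : ZMod 8) * ((jacobiSym (p : ℤ) f : ℤ) : ℂ)‖ ≤ β * (PP y).card := by
    intro M φ hM hM8 hMm hφ2 hφ hφψ
    have hc : f.Coprime (2 * M) := by
      refine Nat.Coprime.mul_right hf2 ?_
      have h5 : f.Coprime 8 := by
        have : (8 : ℕ) = 2 ^ 3 := by norm_num
        rw [this]
        exact Nat.Coprime.pow_right 3 hf2
      exact Nat.Coprime.coprime_dvd_right hM8 h5
    obtain ⟨χ, hχ1, hχ2, happ⟩ := char_prod M f hM hf1 hs hc φ hφ2 hφ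
    obtain ⟨β, hβ, y0, hy0⟩ := hR (M * f) χ (Nat.one_le_iff_ne_zero.2
      (Nat.mul_ne_zero (by omega) (by omega))) (Nat.Coprime.mul_left hMm hfm) hχ2 hχ1
    refine ⟨β, hβ, max y0 (8 * f), fun y hy => ?_⟩
    have h6 := hy0 y (le_trans (le_max_left _ _) hy)
    rw [← PP_eq] at h6
    have h7 : ∑ p ∈ PP y, ψ (p : ZMod 8) * ((jacobiSym (p : ℤ) f : ℤ) : ℂ) =
        ∑ p ∈ PP y, χ (p : ZMod (M * f)) := by
      refine Finset.sum_congr rfl fun p hp => ?_
      obtain ⟨⟨h8, -⟩, hpp, -⟩ := mem_PP.1 hp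
      have h9 : 8 * f < p := lt_of_le_of_lt (le_trans (le_max_right _ _) hy) h8
      have hp8f : p.Coprime (8 * f) := by
        rw [Nat.Prime.coprime_iff_not_dvd hpp]
        intro hd
        have := Nat.le_of_dvd (by omega) hd
        omega
      have hp8 : p.Coprime 8 := Nat.Coprime.coprime_dvd_right (dvd_mul_right 8 f) hp8f
      have hpMf : p.Coprime (M * f) :=
        Nat.Coprime.coprime_dvd_right (Nat.mul_dvd_mul_right hM8 f) hp8f
      rw [happ p hpMf, hφψ p hp8]
    rw [h7]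
    exact h6
  by_cases hr2 : 2 ∣ r
  · -- modulus 8
    have h8m : Nat.Coprime 8 m := by
      have : (8 : ℕ) = 2 ^ 3 := by norm_num
      rw [this]
      exact Nat.Coprime.pow_left 3 (Nat.Coprime.coprime_dvd_left hr2 hrm)
    exact key 8 ψ (by norm_num) dvd_rfl h8m (sq8 ψ) hne fun n _ => rfl
  · have hψ := hψ1 hr2
    have hf1' : f ≠ 1 := fun h => hne ⟨hψ, h⟩
    refine key 1 1 le_rfl (one_dvd _) (Nat.coprime_one_left m) (one_pow 2)
      (fun h => hf1' h.2) fun n hn => ?_
    rw [hψ, MulChar.one_apply ((ZMod.isUnit_iff_coprime n 8).2 hn),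
      MulChar.one_apply ((ZMod.isUnit_iff_coprime n 1).2 (Nat.coprime_one_right n))]

end Pool.Agent.N71.PS.RA232
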